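import Mathlib

/-!
Squad NP9 (MP_e935e7_lc, Q1): a prime-representing polynomial in 9 unknowns.
All objects are defined here, and the statements of the modules.
The proofs in words are in /team-store/PAPER_NP9.md.
-/

set_option autoImplicit false

namespace Pool.Agent.NP9

open Finset

/-- The sequence Y_a(0) = 0, Y_a(1) = 1, Y_a(n+2) = 2 a Y_a(n+1) - Y_a(n)
(the y-coordinates of the solutions of the Pell equation x^2 - (a^2-1) y^2 = 1). -/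
def Y (a : ℤ) : ℕ → ℤ
  | 0 => 0
  | 1 => 1
  | (n + 2) => 2 * a * Y a (n + 1) - Y a n

section poly

variable {R : Type} [CommRing R]

/-! The Matiyasevich-Robinson D, F, I. -/

def dD (a C : R) : R := (a ^ 2 - 1) * C ^ 2 + 1
def dE (a C x : R) : R := 2 * C ^ 2 * dD a C * (x + 1)
def dF (a C x : R) : R := (a ^ 2 - 1) * (dE a C x) ^ 2 + 1
def dG (a C x : R) : R := a + dF a C x * (dF a C x - a)
def dH (a B C x y : R) : R := C + B * dF a C x + (2 * y + 1) * C * dF a C x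
def dI (a B C x y : R) : R := ((dG a C x) ^ 2 - 1) * (dH a B C x y) ^ 2 + 1
def dfi (a B C x y : R) : R := dD a C * dF a C x * dI a B C x y

/-! The relation combining polynomial for three squares and one positivity. -/

def cW (r : R) : R := 2 * r - 1
def cX (a b c : R) : R := 1 + a + b + c
def cU (a b c r w : R) : R := w - cW r * cX a b c ^ 3
def cA (a r : R) : R := cW r ^ 2 * a
def cB (a b c r : R) : R := cW r ^ 2 * cX a b c ^ 2 * b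
def cC (a b c r : R) : R := cW r ^ 2 * cX a b c ^ 4 * c
/-- even part -/
def cEv (u α β γ : R) : R :=
  u ^ 4 + 6 * u ^ 2 * γ + γ ^ 2 - 2 * (α + β) * (u ^ 2 + γ) + (α - β) ^ 2
/-- odd part -/
def cOd (u α β γ : R) : R := 4 * u ^ 3 + 4 * u * γ - 4 * (α + β) * u
/-- product of the eight numbers u ± √α ± √β ± √γ -/
def cPr (u α β γ : R) : R := cEv u α β γ ^ 2 - γ * cOd u α β γ ^ 2
def comb (a b c r w : R) : R :=
  cPr (cU a b c r w) (cA a r) (cB a b c r) (cC a b c r)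

/-! The system. The prime is t + 2, n = t + 1. -/

def pF (t m : R) : R := m * (t + 2) + (t + 1)
def pc (t m : R) : R := 1000 * (t + 2) ^ 2 * pF t m
def pK (t m l : R) : R := (t + 2) + l * (pc t m - 1)
def pv (t m l : R) : R := 100 * pc t m * pK t m l
def pC (t m l h : R) : R := pc t m + h * pv t m l
def pJ (t m l k : R) : R := (pc t m - (t + 1)) + k * (pv t m l - 1)
def pA1 (t m l : R) : R := (pc t m ^ 2 - 1) * pK t m l ^ 2 + 1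
def pA2 (t m l k : R) : R := (pv t m l ^ 2 - 1) * pJ t m l k ^ 2 + 1
def pA3 (t m l h x y : R) : R := dfi (pv t m l + 1) (pc t m) (pC t m l h) x y
def pz (t m g h k l : R) : R := pC t m l h - 2 * pv t m l * g * pJ t m l k
def pR (t m g h k l : R) : R :=
  pz t m g h k l ^ 2 - 4 * (pK t m l * pJ t m l k - pF t m * pz t m g h k l) ^ 2

/-- The prime representing polynomial, in nine unknowns. -/
def prm (t m g h k l x y w : R) : R :=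
  (t + 2) * (1 - comb (pA1 t m l) (pA2 t m l k) (pA3 t m l h x y) (pR t m g h k l) w ^ 2)

end poly

/-! ### Module YB: basic facts on Y -/

def YPellStmt : Prop :=
  ∀ (a : ℕ) (a1 : 1 < a) (n : ℕ), Y (a : ℤ) n = (Pell.yn a1 n : ℤ)

def YSqStmt : Prop :=
  ∀ (a y : ℤ), 2 ≤ a → 0 ≤ y → (IsSquare ((a ^ 2 - 1) * y ^ 2 + 1) ↔ ∃ n : ℕ, y = Y a n)

def YModStmt : Prop := ∀ (a : ℤ) (n : ℕ), (a - 1) ∣ Y a n - n

def YBdStmt : Prop :=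
  ∀ (a : ℤ) (n : ℕ), 1 ≤ a →
    (2 * a - 1) ^ n ≤ Y a (n + 1) ∧ Y a (n + 1) ≤ (2 * a) ^ n ∧ Y a n ≤ Y a (n + 1)

/-! ### Module DS: soundness of DFI -/

def DfiSoundStmt : Prop :=
  ∀ (a : ℤ) (B : ℕ) (C : ℤ) (x y : ℕ), 3 ≤ a → 1 ≤ B → (B : ℤ) ≤ C →
    IsSquare (dfi a (B : ℤ) C (x : ℤ) (y : ℤ)) → C = Y a B

/-! ### Module DC: completeness of DFI -/

def DfiComplStmt : Prop :=
  ∀ (a : ℤ) (B : ℕ), 2 ≤ a → 2 ≤ B →
    ∃ x y : ℕ, IsSquare (dfi a (B : ℤ) (Y a B) (x : ℤ) (y : ℤ))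

/-! ### Modules SEA, SEB, SEC, SER: the expansion of Y_{v+1}(c) / Y_v(c-n) in base 2v -/

def SeaStmt : Prop :=
  ∀ (c : ℕ) (v : ℤ), 1 ≤ c →
    Y (v + 1) c = ∑ i ∈ range c, (((2 * c - 1 - i).choose i : ℕ) : ℤ) * (2 * v) ^ (c - 1 - i)

def SebStmt : Prop :=
  ∀ (m : ℕ) (v : ℤ), 1 ≤ m →
    Y v m = ∑ j ∈ range m,
      (-1) ^ j * (((m - 1 - j).choose j : ℕ) : ℤ) * (2 * v) ^ (m - 1 - 2 * j)

/-- The digits: a is the sequence of the coefficients of the power series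
`(∑ C(2c-1-i,i) w^i) / (∑ (-1)^j C(m-1-j,j) w^(2j))`, m = c - n. -/
def SecStmt : Prop :=
  ∀ (c n : ℕ), 1 ≤ n → 8 * n ^ 2 ≤ c →
    ∃ a : ℕ → ℤ,
      (∀ s : ℕ, ∑ j ∈ range (s / 2 + 1),
        (-1) ^ j * (((c - n - 1 - j).choose j : ℕ) : ℤ) * a (s - 2 * j)
          = (((2 * c - 1 - s).choose s : ℕ) : ℤ)) ∧
      (∀ s : ℕ, |(a s : ℝ)| ≤ 2 * (2 * (c : ℝ)) ^ s) ∧
      (∀ s : ℕ, s ≤ n → 0 ≤ a s ∧
        |(a s : ℝ) - (2 * (c : ℝ)) ^ s / (s.factorial : ℝ)|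
          ≤ 2 * ((s : ℝ) ^ 2 / (c : ℝ)) * ((2 * (c : ℝ)) ^ s / (s.factorial : ℝ)))

def SerStmt : Prop :=
  ∀ (c n v : ℕ), 1 ≤ n → 8 * n ^ 2 ≤ c → 2 * c ≤ v →
    ∃ G : ℕ, |(Y ((v : ℤ) + 1) c : ℝ) / (Y (v : ℤ) (c - n) : ℝ) - 2 * (v : ℝ) * (G : ℝ)
        - (2 * (c : ℝ)) ^ n / (n.factorial : ℝ)|
      ≤ 2 * ((n : ℝ) ^ 2 / (c : ℝ)) * ((2 * (c : ℝ)) ^ n / (n.factorial : ℝ))
        + 4 * (c : ℝ) * (2 * (c : ℝ)) ^ n / (v : ℝ)

/-! ### Modules FA, FB, FC: the real inequalities.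
Common data: n ≥ 1, F ≥ 1, 1000 (n+1)^2 F ≤ c, K ≥ (2c-1)^n, v = 100 c K,
`|ρ - 2 v G - L| ≤ 2 (n^2/c) L + 4 c (2c)^n / v` with L = (2c)^n/n!. -/

/-- the hypotheses on the sizes -/
structure Sz (n F c : ℕ) (K v G ρ : ℝ) : Prop where
  n1 : 1 ≤ n
  F1 : 1 ≤ F
  c1 : 1000 * (n + 1) ^ 2 * F ≤ c
  K1 : (2 * (c : ℝ) - 1) ^ n ≤ K
  v1 : v = 100 * (c : ℝ) * K
  r1 : |ρ - 2 * v * G - (2 * (c : ℝ)) ^ n / (n.factorial : ℝ)|
      ≤ 2 * ((n : ℝ) ^ 2 / (c : ℝ)) * ((2 * (c : ℝ)) ^ n / (n.factorial : ℝ))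
        + 4 * (c : ℝ) * (2 * (c : ℝ)) ^ n / v

/-- FA: the value g of the unknown is forced, and K is not too large. -/
def FaStmt : Prop :=
  ∀ (n F c : ℕ) (K v ρ : ℝ) (G g : ℕ), Sz n F c K v (G : ℝ) ρ →
    4 * (K - (F : ℝ) * (ρ - 2 * v * (g : ℝ))) ^ 2 < (ρ - 2 * v * (g : ℝ)) ^ 2 →
    g = G ∧ K < (2 * (c : ℝ) - 1) ^ (n + 1)

/-- FB: the factorial is forced. -/
def FbStmt : Prop :=
  ∀ (n F c : ℕ) (K v ρ : ℝ) (G : ℕ), Sz n F c K v (G : ℝ) ρ → K ≤ (2 * (c : ℝ)) ^ n →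
    4 * (K - (F : ℝ) * (ρ - 2 * v * (G : ℝ))) ^ 2 < (ρ - 2 * v * (G : ℝ)) ^ 2 →
    F = n.factorial

/-- FC: the inequality holds for the factorial. -/
def FcStmt : Prop :=
  ∀ (n F c : ℕ) (K v ρ : ℝ) (G : ℕ), Sz n F c K v (G : ℝ) ρ → K ≤ (2 * (c : ℝ)) ^ n →
    F = n.factorial →
    4 * (K - (F : ℝ) * (ρ - 2 * v * (G : ℝ))) ^ 2 < (ρ - 2 * v * (G : ℝ)) ^ 2

/-! ### Module CB: relation combining -/

def CombStmt : Prop :=
  ∀ (a b c r : ℤ), 1 ≤ a → 1 ≤ b → 1 ≤ c →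
    ((∃ w : ℕ, comb a b c r (w : ℤ) = 0) ↔ (IsSquare a ∧ IsSquare b ∧ IsSquare c ∧ 0 < r))

/-! ### Module SND: soundness of the system -/

def SndStmt : Prop :=
  ∀ (t m g h k l x y : ℕ),
    IsSquare (pA1 (t : ℤ) m l) → IsSquare (pA2 (t : ℤ) m l k) →
    IsSquare (pA3 (t : ℤ) m l h x y) → 0 < pR (t : ℤ) m g h k l →
    (t + 2).Prime

/-! ### Module CMP: completeness of the system -/

def CmpStmt : Prop :=
  ∀ (t : ℕ), (t + 2).Prime → ∃ m g h k l x y : ℕ,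
    IsSquare (pA1 (t : ℤ) m l) ∧ IsSquare (pA2 (t : ℤ) m l k) ∧
    IsSquare (pA3 (t : ℤ) m l h x y) ∧ 0 < pR (t : ℤ) m g h k l

/-! ### Module FIN -/

def FinStmt : Prop :=
  ∃ f : MvPolynomial (Fin 9) ℤ, ∀ p : ℕ, 0 < p →
    ((∃ x : Fin 9 → ℕ, MvPolynomial.eval (fun i => (x i : ℤ)) f = (p : ℤ)) ↔ p.Prime)

end Pool.Agent.NP9
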