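import Pool.Agent.Helper1_NP9.SND

set_option autoImplicit false

namespace Pool.Agent.NP9.H1

open Pool.Agent.NP9

theorem Y_ge (yBd : YBdStmt) (a : ℤ) (ha : 2 ≤ a) (n : ℕ) : (n : ℤ) ≤ Y a n := by
  cases n with
  | zero => simp [Y]
  | succ n =>
    have h1 := (yBd a n (by linarith)).1
    have h2 : (2 : ℤ) ^ n ≤ (2 * a - 1) ^ n := pow_le_pow_left₀ (by norm_num) (by linarith) n
    have h3 : n + 1 ≤ 2 ^ n := Nat.lt_two_pow_self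
    have h4 : ((n + 1 : ℕ) : ℤ) ≤ (2 : ℤ) ^ n := by exact_mod_cast h3
    linarith

theorem Y_quot (yBd : YBdStmt) (yMod : YModStmt) (a : ℤ) (ha : 2 ≤ a) (n : ℕ) :
    ∃ q : ℕ, Y a n = (n : ℤ) + (q : ℤ) * (a - 1) := by
  obtain ⟨r, hr⟩ := yMod a n
  have h1 := Y_ge yBd a ha n
  have h2 : 0 ≤ r := by
    by_contra hneg
    have : r ≤ -1 := by omega
    nlinarith
  obtain ⟨q, rfl⟩ := Int.eq_ofNat_of_zero_le h2
  exact ⟨q, by linarith⟩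

theorem wilson_aux (t : ℕ) (hp : (t + 2).Prime) :
    ∃ m : ℕ, (t + 1).factorial = m * (t + 2) + (t + 1) := by
  haveI : Fact (t + 2).Prime := ⟨hp⟩
  have h1 := ZMod.wilsons_lemma (t + 2)
  have h2 : (t + 2 - 1) = t + 1 := by omega
  rw [h2] at h1
  have h3 : (((t + 1).factorial + 1 : ℕ) : ZMod (t + 2)) = 0 := by
    push_cast
    rw [h1]
    ring
  rw [ZMod.natCast_eq_zero_iff] at h3
  obtain ⟨M, hM⟩ := h3
  have hM1 : 1 ≤ M := by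
    rcases Nat.eq_zero_or_pos M with h | h
    · subst h; simp at hM
    · exact h
  obtain ⟨m, rfl⟩ : ∃ m, M = m + 1 := ⟨M - 1, by omega⟩
  refine ⟨m, ?_⟩
  have : (t + 2) * (m + 1) = m * (t + 2) + (t + 1) + 1 := by ring
  omega

theorem div_sq_aux (K F z J : ℝ) (hJ : 0 < J)
    (h : 4 * (K - F * (z / J)) ^ 2 < (z / J) ^ 2) : 4 * (K * J - F * z) ^ 2 < z ^ 2 := by
  rw [div_aux2 K F z J hJ.ne', div_pow, div_pow, ← mul_div_assoc] at h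
  exact (div_lt_div_iff_of_pos_right (pow_pos hJ 2)).1 h

theorem cmp_core (ySq : YSqStmt) (yMod : YModStmt) (yBd : YBdStmt) (dc : DfiComplStmt)
    (ser : SerStmt) (fc : FcStmt) (t : ℕ) (hp : (t + 2).Prime) :
    ∃ m g h k l x y : ℕ, ∃ F c K v C J z : ℤ,
      F = m * (t + 2) + (t + 1) ∧ c = 1000 * (t + 2) ^ 2 * F ∧
      K = (t + 2) + l * (c - 1) ∧ v = 100 * c * K ∧
      C = c + h * v ∧ J = (c - (t + 1)) + k * (v - 1) ∧ z = C - 2 * v * g * J ∧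
      IsSquare ((c ^ 2 - 1) * K ^ 2 + 1) ∧ IsSquare ((v ^ 2 - 1) * J ^ 2 + 1) ∧
      IsSquare (dfi (v + 1) c C (x : ℤ) (y : ℤ)) ∧
      0 < z ^ 2 - 4 * (K * J - F * z) ^ 2 := by
  obtain ⟨m, hm⟩ := wilson_aux t hp
  obtain ⟨Fn, hFn⟩ : ∃ Fn : ℕ, Fn = (t + 1).factorial := ⟨_, rfl⟩
  have F1 : 1 ≤ Fn := by rw [hFn]; exact Nat.factorial_pos _
  obtain ⟨cn, hcn⟩ : ∃ cn : ℕ, cn = 1000 * (t + 2) ^ 2 * Fn := ⟨_, rfl⟩
  have hsq : 4 ≤ (t + 2) ^ 2 := by nlinarith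
  have c1 : 1000 * (t + 2) ^ 2 ≤ cn := by
    rw [hcn]; nlinarith
  have c4 : 4000 ≤ cn := by linarith
  have c4' : (4000 : ℤ) ≤ (cn : ℤ) := by exact_mod_cast c4
  obtain ⟨l, hl⟩ := Y_quot yBd yMod (cn : ℤ) (by linarith) (t + 2)
  obtain ⟨K, hK⟩ : ∃ K : ℤ, K = Y (cn : ℤ) (t + 2) := ⟨_, rfl⟩
  have K0 : (2 : ℤ) ≤ K := by
    rw [hK]
    have := Y_ge yBd (cn : ℤ) (by linarith) (t + 2)
    push_cast at this
    have t0 : (0 : ℤ) ≤ t := Int.natCast_nonneg t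
    linarith
  obtain ⟨Kn, hKn⟩ := Int.eq_ofNat_of_zero_le (show (0 : ℤ) ≤ K by linarith)
  obtain ⟨vn, hvn⟩ : ∃ vn : ℕ, vn = 100 * cn * Kn := ⟨_, rfl⟩
  have hv : (vn : ℤ) = 100 * (cn : ℤ) * K := by
    rw [hKn, hvn]; push_cast; ring
  have v1 : 200 * (cn : ℤ) ≤ (vn : ℤ) := by
    rw [hv]; nlinarith
  obtain ⟨C, hC⟩ : ∃ C : ℤ, C = Y ((vn : ℤ) + 1) cn := ⟨_, rfl⟩
  obtain ⟨h, hh⟩ := Y_quot yBd yMod ((vn : ℤ) + 1) (by linarith) cn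
  have htc : t + 1 ≤ cn := by nlinarith
  obtain ⟨J, hJ⟩ : ∃ J : ℤ, J = Y (vn : ℤ) (cn - (t + 1)) := ⟨_, rfl⟩
  obtain ⟨k, hk⟩ := Y_quot yBd yMod (vn : ℤ) (by linarith) (cn - (t + 1))
  have hcast : ((cn - (t + 1) : ℕ) : ℤ) = (cn : ℤ) - ((t : ℤ) + 1) := by
    rw [Nat.cast_sub htc]; push_cast; ring
  have J1 : 1 ≤ J := by
    have h1 := Y_ge yBd (vn : ℤ) (by linarith) (cn - (t + 1))
    rw [← hJ, hcast] at h1
    have h2 : (t : ℤ) + 2 ≤ cn := by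
      have : t + 2 ≤ cn := by nlinarith
      exact_mod_cast this
    linarith
  have hn2 : 8 * (t + 1) ^ 2 ≤ cn := by nlinarith
  have hvn2 : 2 * cn ≤ vn := by
    have : 2 * (cn : ℤ) ≤ (vn : ℤ) := by linarith
    exact_mod_cast this
  obtain ⟨G, hG⟩ := ser cn (t + 1) vn (by omega) hn2 hvn2
  rw [← hC, ← hJ] at hG
  obtain ⟨x, y, hxy⟩ := dc ((vn : ℤ) + 1) cn (by linarith) (by linarith)
  rw [← hC] at hxy
  have hFz : (Fn : ℤ) = (m : ℤ) * ((t : ℤ) + 2) + ((t : ℤ) + 1) := by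
    rw [hFn, hm]; push_cast; ring
  have Jr : (0 : ℝ) < (J : ℝ) := by
    have : (0 : ℤ) < J := by linarith
    exact_mod_cast this
  have K3 : (2 * (cn : ℤ) - 1) ^ (t + 1) ≤ K := by
    rw [hK]; exact (yBd (cn : ℤ) (t + 1) (by linarith)).1
  have K5 : K ≤ (2 * (cn : ℤ)) ^ (t + 1) := by
    rw [hK]; exact (yBd (cn : ℤ) (t + 1) (by linarith)).2.1
  have sz : Sz (t + 1) Fn cn (K : ℝ) (vn : ℝ) (G : ℝ) ((C : ℝ) / (J : ℝ)) := by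
    refine ⟨by omega, F1, ?_, ?_, ?_, ?_⟩
    · rw [hcn]
    · exact_mod_cast K3
    · exact_mod_cast hv
    · exact hG
  have hin := fc (t + 1) Fn cn (K : ℝ) (vn : ℝ) ((C : ℝ) / (J : ℝ)) G sz
    (by exact_mod_cast K5) hFn
  have e1 : (C : ℝ) / (J : ℝ) - 2 * (vn : ℝ) * (G : ℝ)
      = ((C - 2 * (vn : ℤ) * (G : ℤ) * J : ℤ) : ℝ) / (J : ℝ) := by
    rw [div_aux1 _ _ _ _ Jr.ne']
    push_cast
    rfl
  rw [e1] at hin
  have hin2 := div_sq_aux _ _ _ _ Jr hin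
  refine ⟨m, G, h, k, l, x, y, (Fn : ℤ), (cn : ℤ), K, (vn : ℤ), C, J,
    C - 2 * (vn : ℤ) * (G : ℤ) * J, hFz, ?_, ?_, hv, ?_, ?_, rfl, ?_, ?_, hxy, ?_⟩
  · rw [hcn]; push_cast; ring
  · rw [hK, hl]; push_cast; ring
  · rw [hC, hh]; ring
  · rw [hJ, hk, hcast]
  · exact (ySq (cn : ℤ) K (by linarith) (by linarith)).2 ⟨t + 2, hK⟩
  · exact (ySq (vn : ℤ) J (by linarith) (by linarith)).2 ⟨cn - (t + 1), hJ⟩
  · have : 4 * (K * J - (Fn : ℤ) * (C - 2 * (vn : ℤ) * (G : ℤ) * J)) ^ 2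
        < (C - 2 * (vn : ℤ) * (G : ℤ) * J) ^ 2 := by exact_mod_cast hin2
    linarith

theorem cmp_mid (ySq : YSqStmt) (yMod : YModStmt) (yBd : YBdStmt) (dc : DfiComplStmt)
    (ser : SerStmt) (fc : FcStmt) (t : ℕ) (hp : (t + 2).Prime) :
    ∃ m g h k l x y : ℕ, ∃ F c K v C J z : ℤ,
      F = qF (t : ℤ) m ∧ c = qc (t : ℤ) F ∧ K = qK (t : ℤ) c l ∧ v = qv c K ∧
      C = qC c h v ∧ J = qJ (t : ℤ) c k v ∧ z = qz C v g J ∧
      IsSquare (q1 c K) ∧ IsSquare (q1 v J) ∧ IsSquare (q3 v c C (x : ℤ) (y : ℤ)) ∧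
      0 < qR z K J F :=
  cmp_core ySq yMod yBd dc ser fc t hp

theorem cmp (ySq : YSqStmt) (yMod : YModStmt) (yBd : YBdStmt) (dc : DfiComplStmt)
    (ser : SerStmt) (fc : FcStmt) : CmpStmt := by
  intro t hp
  obtain ⟨m, g, h, k, l, x, y, F, c, K, v, C, J, z, hF, hc, hK, hv, hC, hJ, hz, s1, s2, s3, hR⟩ :=
    cmp_mid ySq yMod yBd dc ser fc t hp
  have eF : pF (t : ℤ) m = F := (eqF (t : ℤ) m).trans hF.symm
  have ec : pc (t : ℤ) m = c := by rw [eqc, eF]; exact hc.symm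
  have eK : pK (t : ℤ) m l = K := by rw [eqK, ec]; exact hK.symm
  have ev : pv (t : ℤ) m l = v := by rw [eqv, ec, eK]; exact hv.symm
  have eC : pC (t : ℤ) m l h = C := by rw [eqC, ec, ev]; exact hC.symm
  have eJ : pJ (t : ℤ) m l k = J := by rw [eqJ, ec, ev]; exact hJ.symm
  have ez : pz (t : ℤ) m g h k l = z := by rw [eqz, eC, ev, eJ]; exact hz.symm
  refine ⟨m, g, h, k, l, x, y, ?_, ?_, ?_, ?_⟩
  · rw [eq1, ec, eK]; exact s1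
  · rw [eq2, ev, eJ]; exact s2
  · rw [eq3, ev, ec, eC]; exact s3
  · rw [eqR, ez, eK, eJ, eF]; exact hR

end Pool.Agent.NP9.H1
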