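import Pool.Agent.Helper1_NP9.Q

set_option autoImplicit false

namespace Pool.Agent.NP9.H1

open Pool.Agent.NP9

theorem Y_mono (yBd : YBdStmt) (a : ℤ) (ha : 1 ≤ a) : Monotone (Y a) :=
  monotone_nat_of_le_succ fun n => (yBd a n ha).2.2

/-- `(2v+2)^e ≤ 2 (2v-1)^e` if `3e ≤ v`. -/
theorem pow_two (e : ℕ) (v : ℤ) (hv : 1 ≤ v) (h : 3 * (e : ℤ) ≤ v) :
    (2 * (v + 1)) ^ e ≤ 2 * (2 * v - 1) ^ e := by
  have hvr : (1 : ℝ) ≤ (v : ℝ) := by exact_mod_cast hv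
  have her : 3 * (e : ℝ) ≤ (v : ℝ) := by exact_mod_cast h
  have hpos : (0 : ℝ) < 2 * ((v : ℝ) + 1) := by linarith
  have hb : (1 : ℝ) + (e : ℝ) * (-(3 / (2 * ((v : ℝ) + 1)))) ≤
      (1 + (-(3 / (2 * ((v : ℝ) + 1))))) ^ e := by
    apply one_add_mul_le_pow
    have : 3 / (2 * ((v : ℝ) + 1)) ≤ 1 := by
      rw [div_le_one hpos]; linarith
    linarith
  have hhalf : (1 : ℝ) / 2 ≤ 1 + (e : ℝ) * (-(3 / (2 * ((v : ℝ) + 1)))) := by
    have : (e : ℝ) * (3 / (2 * ((v : ℝ) + 1))) ≤ 1 / 2 := by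
      rw [mul_div_assoc', div_le_div_iff₀ hpos (by norm_num)]
      linarith
    linarith
  have hfr : (1 + (-(3 / (2 * ((v : ℝ) + 1))))) = (2 * (v : ℝ) - 1) / (2 * ((v : ℝ) + 1)) := by
    field_simp
    ring
  rw [hfr, div_pow] at hb
  have h2 : (1 : ℝ) / 2 ≤ (2 * (v : ℝ) - 1) ^ e / (2 * ((v : ℝ) + 1)) ^ e := le_trans hhalf hb
  rw [div_le_div_iff₀ (by norm_num) (pow_pos hpos e)] at h2
  have h3 : (2 * ((v : ℝ) + 1)) ^ e ≤ 2 * (2 * (v : ℝ) - 1) ^ e := by linarith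
  exact_mod_cast h3

theorem prime_of_fac (t m : ℕ) (h : m * (t + 2) + (t + 1) = (t + 1).factorial) :
    (t + 2).Prime := by
  apply Nat.prime_of_fac_equiv_neg_one
  · have h1 : (t + 2 - 1) = t + 1 := by omega
    rw [h1, ← h]
    have h2 : ((m * (t + 2) + (t + 1) : ℕ) : ZMod (t + 2)) + 1
        = (((m + 1) * (t + 2) : ℕ) : ZMod (t + 2)) := by
      push_cast
      ring
    have h3 : (((m + 1) * (t + 2) : ℕ) : ZMod (t + 2)) = 0 := by
      rw [Nat.cast_mul, ZMod.natCast_self, mul_zero]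
    rw [h3] at h2
    exact eq_neg_of_add_eq_zero_left h2
  · omega

/-- sign and size information from the inequality. -/
theorem ineq_aux (K J F z : ℤ) (hK : 1 ≤ K) (hJ : 1 ≤ J) (hF : 1 ≤ F)
    (hR : 0 < z ^ 2 - 4 * (K * J - F * z) ^ 2) : 0 < z ∧ 2 * (K * J) < (2 * F + 1) * z := by
  have hKJ : 1 ≤ K * J := by nlinarith
  have hz : 0 < z := by
    by_contra hneg
    have hz0 : z ≤ 0 := not_lt.1 hneg
    have h1 : -z ≤ K * J - F * z := by nlinarith [mul_nonneg (show (0:ℤ) ≤ F - 1 by linarith) (show (0:ℤ) ≤ -z by linarith)]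
    have h2 : 0 ≤ -z := by linarith
    have h3 : 0 < K * J - F * z := by nlinarith [mul_nonneg (show (0:ℤ) ≤ F by linarith) h2]
    nlinarith [mul_self_le_mul_self h2 h1]
  refine ⟨hz, ?_⟩
  have h4 : (2 * (K * J - F * z)) ^ 2 < z ^ 2 := by nlinarith
  have h5 := abs_lt_of_sq_lt_sq h4 hz.le
  have h6 := (abs_lt.1 h5).2
  linarith

theorem div_aux1 (C V g J : ℝ) (hJ : J ≠ 0) : C / J - 2 * V * g = (C - 2 * V * g * J) / J := by
  field_simp

theorem div_aux2 (K F z J : ℝ) (hJ : J ≠ 0) : K - F * (z / J) = (K * J - F * z) / J := by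
  field_simp

theorem sq_div_aux (K F z J : ℝ) (hJ : 0 < J) (h : 4 * (K * J - F * z) ^ 2 < z ^ 2) :
    4 * (K - F * (z / J)) ^ 2 < (z / J) ^ 2 := by
  rw [div_aux2 K F z J hJ.ne', div_pow, div_pow, ← mul_div_assoc]
  exact div_lt_div_of_pos_right h (pow_pos hJ 2)

theorem snd_core (ySq : YSqStmt) (yMod : YModStmt) (yBd : YBdStmt) (ds : DfiSoundStmt)
    (ser : SerStmt) (fa : FaStmt) (fb : FbStmt)
    (t m g h k l x y : ℕ) (F c K v C J z : ℤ)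
    (hF : F = m * (t + 2) + (t + 1)) (hc : c = 1000 * (t + 2) ^ 2 * F)
    (hK : K = (t + 2) + l * (c - 1)) (hv : v = 100 * c * K)
    (hC : C = c + h * v) (hJ : J = (c - (t + 1)) + k * (v - 1)) (hz : z = C - 2 * v * g * J)
    (s1 : IsSquare ((c ^ 2 - 1) * K ^ 2 + 1)) (s2 : IsSquare ((v ^ 2 - 1) * J ^ 2 + 1))
    (s3 : IsSquare (dfi (v + 1) c C (x : ℤ) (y : ℤ)))
    (hR : 0 < z ^ 2 - 4 * (K * J - F * z) ^ 2) : (t + 2).Prime := by
  have t0 : (0 : ℤ) ≤ t := Int.natCast_nonneg t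
  have m0 : (0 : ℤ) ≤ m := Int.natCast_nonneg m
  have h0 : (0 : ℤ) ≤ h := Int.natCast_nonneg h
  have k0 : (0 : ℤ) ≤ k := Int.natCast_nonneg k
  have l0 : (0 : ℤ) ≤ l := Int.natCast_nonneg l
  have F1 : 1 ≤ F := by
    have := mul_nonneg m0 (show (0 : ℤ) ≤ (t : ℤ) + 2 by linarith)
    linarith
  have hsq : (4 : ℤ) ≤ ((t : ℤ) + 2) ^ 2 := by nlinarith
  have c1 : 1000 * ((t : ℤ) + 2) ^ 2 ≤ c := by
    rw [hc]; nlinarith
  have c2 : 4000 * F ≤ c := by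
    rw [hc]; nlinarith
  have c3 : (t : ℤ) + 2 < c - 1 := by nlinarith
  have c4 : (4000 : ℤ) ≤ c := by linarith
  have K1 : (t : ℤ) + 2 ≤ K := by
    have := mul_nonneg l0 (show (0 : ℤ) ≤ c - 1 by linarith)
    linarith
  have K2 : 2 ≤ K := by linarith
  have v1 : 200 * c ≤ v := by rw [hv]; nlinarith
  have v2 : 1 ≤ v := by linarith
  have C1 : c ≤ C := by
    have := mul_nonneg h0 (show (0 : ℤ) ≤ v by linarith)
    linarith
  have J1 : 1 ≤ J := by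
    have := mul_nonneg k0 (show (0 : ℤ) ≤ v - 1 by linarith)
    linarith
  -- K
  obtain ⟨j, hj⟩ := (ySq c K (by linarith) (by linarith)).1 s1
  have jd : (c - 1) ∣ (j : ℤ) - ((t : ℤ) + 2) := by
    have h1 := yMod c j
    rw [← hj] at h1
    have h2 : (c - 1) ∣ K - ((t : ℤ) + 2) := ⟨l, by rw [hK]; ring⟩
    have h3 := dvd_sub h2 h1
    have h4 : K - ((t : ℤ) + 2) - (K - (j : ℤ)) = (j : ℤ) - ((t : ℤ) + 2) := by ring
    rwa [h4] at h3
  have j1 : t + 2 ≤ j := by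
    by_contra hlt
    have hlt' : (j : ℤ) < (t : ℤ) + 2 := by
      have : j < t + 2 := not_le.1 hlt
      exact_mod_cast this
    have h1 : (c - 1) ∣ ((t : ℤ) + 2) - j := by
      have := (dvd_neg).2 jd
      have h2 : -((j : ℤ) - ((t : ℤ) + 2)) = ((t : ℤ) + 2) - j := by ring
      rwa [h2] at this
    have h2 := Int.le_of_dvd (by linarith) h1
    have : (0 : ℤ) ≤ j := Int.natCast_nonneg j
    linarith
  have c1' : (1 : ℤ) ≤ c := by linarith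
  have K3 : (2 * c - 1) ^ (t + 1) ≤ K := by
    have h1 := (yBd c (t + 1) c1').1
    have h2 := Y_mono yBd c c1' j1
    rw [hj]
    exact le_trans h1 h2
  have K4 : 2 * c - 1 ≤ K := by
    have h1 : (2 * c - 1) ^ 1 ≤ (2 * c - 1) ^ (t + 1) :=
      pow_le_pow_right₀ (by linarith) (by omega)
    rw [pow_one] at h1
    linarith
  -- naturals
  obtain ⟨cn, rfl⟩ := Int.eq_ofNat_of_zero_le (show (0 : ℤ) ≤ c by linarith)
  obtain ⟨vn, rfl⟩ := Int.eq_ofNat_of_zero_le (show (0 : ℤ) ≤ v by linarith)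
  obtain ⟨Fn, rfl⟩ := Int.eq_ofNat_of_zero_le (show (0 : ℤ) ≤ F by linarith)
  -- C
  have hCY : C = Y ((vn : ℤ) + 1) cn := by
    apply ds ((vn : ℤ) + 1) cn C x y (by linarith) _ C1 s3
    have : (1 : ℤ) ≤ (cn : ℤ) := c1'
    exact_mod_cast this
  -- J
  obtain ⟨i, hi⟩ := (ySq (vn : ℤ) J (by linarith) (by linarith)).1 s2
  have id : ((vn : ℤ) - 1) ∣ (i : ℤ) - ((cn : ℤ) - ((t : ℤ) + 1)) := by
    have h1 := yMod (vn : ℤ) i
    rw [← hi] at h1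
    have h2 : ((vn : ℤ) - 1) ∣ J - ((cn : ℤ) - ((t : ℤ) + 1)) := ⟨k, by rw [hJ]; ring⟩
    have h3 := dvd_sub h2 h1
    have h4 : J - ((cn : ℤ) - ((t : ℤ) + 1)) - (J - (i : ℤ))
        = (i : ℤ) - ((cn : ℤ) - ((t : ℤ) + 1)) := by ring
    rwa [h4] at h3
  obtain ⟨zpos, hKJ⟩ := ineq_aux K J (Fn : ℤ) z (by linarith) J1 F1 hR
  have g0 : (0 : ℤ) ≤ g := Int.natCast_nonneg g
  have zC : z ≤ C := by
    have : 0 ≤ 2 * (vn : ℤ) * (g : ℤ) * J := by positivity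
    linarith
  have i1 : i < cn := by
    by_contra hge
    have hge' : cn ≤ i := not_lt.1 hge
    obtain ⟨e, he⟩ : ∃ e, cn = e + 1 := ⟨cn - 1, by
      have : (1 : ℤ) ≤ (cn : ℤ) := c1'
      omega⟩
    have a1 : (2 * (vn : ℤ) - 1) ^ e ≤ J := by
      have h1 := (yBd (vn : ℤ) e v2).1
      have h2 := Y_mono yBd (vn : ℤ) v2 hge'
      rw [he] at h2
      rw [hi]
      exact le_trans h1 h2
    have a2 : C ≤ (2 * ((vn : ℤ) + 1)) ^ e := by
      rw [hCY, he]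
      exact (yBd ((vn : ℤ) + 1) e (by linarith)).2.1
    have a3 := pow_two e (vn : ℤ) v2 (by
      have : (cn : ℤ) = e + 1 := by exact_mod_cast he
      linarith)
    have a4 : C ≤ 2 * J := by linarith
    have a5 : (2 * (Fn : ℤ) + 1) * z ≤ (2 * (Fn : ℤ) + 1) * (2 * J) :=
      mul_le_mul_of_nonneg_left (by linarith) (by linarith)
    have a6 : K * J < (2 * (Fn : ℤ) + 1) * J := by linarith
    have a7 : K < 2 * (Fn : ℤ) + 1 := lt_of_mul_lt_mul_right a6 (by linarith)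
    linarith
  have htc : t + 1 ≤ cn := by
    have : (t : ℤ) + 1 ≤ (cn : ℤ) := by linarith
    exact_mod_cast this
  have i2 : i = cn - (t + 1) := by
    have hcast : ((cn - (t + 1) : ℕ) : ℤ) = (cn : ℤ) - ((t : ℤ) + 1) := by
      rw [Nat.cast_sub htc]; push_cast; ring
    rw [← hcast] at id
    have h1 : ((i : ℤ) - ((cn - (t + 1) : ℕ) : ℤ)) = 0 := by
      apply Int.eq_zero_of_abs_lt_dvd id
      rw [abs_lt]
      have b1 : (i : ℤ) < cn := by exact_mod_cast i1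
      have b2 : (0 : ℤ) ≤ i := Int.natCast_nonneg i
      have b3 : (0 : ℤ) ≤ ((cn - (t + 1) : ℕ) : ℤ) := Int.natCast_nonneg _
      constructor <;> linarith
    have h2 : (i : ℤ) = ((cn - (t + 1) : ℕ) : ℤ) := by linarith
    exact_mod_cast h2
  -- the expansion
  have hn2 : 8 * (t + 1) ^ 2 ≤ cn := by
    have : 8 * ((t : ℤ) + 1) ^ 2 ≤ (cn : ℤ) := by nlinarith
    exact_mod_cast this
  have hvn2 : 2 * cn ≤ vn := by
    have : 2 * (cn : ℤ) ≤ (vn : ℤ) := by linarith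
    exact_mod_cast this
  obtain ⟨G, hG⟩ := ser cn (t + 1) vn (by omega) hn2 hvn2
  rw [← i2, ← hi, ← hCY] at hG
  have Jr : (0 : ℝ) < (J : ℝ) := by
    have : (0 : ℤ) < J := by linarith
    exact_mod_cast this
  have sz : Sz (t + 1) Fn cn (K : ℝ) (vn : ℝ) (G : ℝ) ((C : ℝ) / (J : ℝ)) := by
    refine ⟨by omega, ?_, ?_, ?_, ?_, ?_⟩
    · exact_mod_cast F1
    · have : 1000 * ((t : ℤ) + 1 + 1) ^ 2 * (Fn : ℤ) ≤ (cn : ℤ) := by
        rw [hc]
        apply le_of_eq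
        ring
      exact_mod_cast this
    · exact_mod_cast K3
    · exact_mod_cast hv
    · exact hG
  have hin : ∀ g' : ℕ, g' = g →
      4 * ((K : ℝ) - (Fn : ℝ) * ((C : ℝ) / (J : ℝ) - 2 * (vn : ℝ) * (g' : ℝ))) ^ 2
        < ((C : ℝ) / (J : ℝ) - 2 * (vn : ℝ) * (g' : ℝ)) ^ 2 := by
    intro g' hg'
    subst hg'
    have e1 : (C : ℝ) / (J : ℝ) - 2 * (vn : ℝ) * (g' : ℝ) = (z : ℝ) / (J : ℝ) := by
      rw [div_aux1 _ _ _ _ Jr.ne', hz]
      push_cast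
      rfl
    rw [e1]
    apply sq_div_aux _ _ _ _ Jr
    have : 4 * (K * J - (Fn : ℤ) * z) ^ 2 < z ^ 2 := by linarith
    exact_mod_cast this
  obtain ⟨hgG, hKlt⟩ := fa (t + 1) Fn cn (K : ℝ) (vn : ℝ) ((C : ℝ) / (J : ℝ)) G g sz (hin g rfl)
  have hKlt' : K < (2 * (cn : ℤ) - 1) ^ (t + 1 + 1) := by exact_mod_cast hKlt
  have j2 : j = t + 2 := by
    by_contra hne
    have j3 : t + 1 + 1 + 1 ≤ j := by omega
    have h1 := (yBd (cn : ℤ) (t + 1 + 1) c1').1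
    have h2 := Y_mono yBd (cn : ℤ) c1' j3
    rw [← hj] at h2
    linarith
  have K5 : K ≤ (2 * (cn : ℤ)) ^ (t + 1) := by
    rw [hj, j2]
    exact (yBd (cn : ℤ) (t + 1) c1').2.1
  have hfac := fb (t + 1) Fn cn (K : ℝ) (vn : ℝ) ((C : ℝ) / (J : ℝ)) G sz
    (by exact_mod_cast K5) (hin G hgG.symm)
  apply prime_of_fac t m
  rw [← hfac]
  exact_mod_cast hF.symm

theorem snd_mid (ySq : YSqStmt) (yMod : YModStmt) (yBd : YBdStmt) (ds : DfiSoundStmt)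
    (ser : SerStmt) (fa : FaStmt) (fb : FbStmt)
    (t m g h k l x y : ℕ) (F c K v C J z : ℤ)
    (hF : F = qF (t : ℤ) m) (hc : c = qc (t : ℤ) F) (hK : K = qK (t : ℤ) c l) (hv : v = qv c K)
    (hC : C = qC c h v) (hJ : J = qJ (t : ℤ) c k v) (hz : z = qz C v g J)
    (s1 : IsSquare (q1 c K)) (s2 : IsSquare (q1 v J))
    (s3 : IsSquare (q3 v c C (x : ℤ) (y : ℤ)))
    (hR : 0 < qR z K J F) : (t + 2).Prime :=
  snd_core ySq yMod yBd ds ser fa fb t m g h k l x y F c K v C J z hF hc hK hv hC hJ hz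
    s1 s2 s3 hR

theorem snd (ySq : YSqStmt) (yMod : YModStmt) (yBd : YBdStmt) (ds : DfiSoundStmt)
    (ser : SerStmt) (fa : FaStmt) (fb : FbStmt) : SndStmt := by
  intro t m g h k l x y s1 s2 s3 hR
  exact snd_mid ySq yMod yBd ds ser fa fb t m g h k l x y _ _ _ _ _ _ _
    (eqF (t : ℤ) m) (eqc (t : ℤ) m) (eqK (t : ℤ) m l) (eqv (t : ℤ) m l) (eqC (t : ℤ) m l h)
    (eqJ (t : ℤ) m l k) (eqz (t : ℤ) m g h k l)
    ((eq1 (t : ℤ) m l) ▸ s1) ((eq2 (t : ℤ) m l k) ▸ s2) ((eq3 (t : ℤ) m l h x y) ▸ s3)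
    ((eqR (t : ℤ) m g h k l) ▸ hR)

end Pool.Agent.NP9.H1
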