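import Pool.Agent.Helper1_NP9.FIN
import Pool.Agent.Helper1_NP9.SND
import Pool.Agent.Helper1_NP9.CMP
import Pool.Agent.Helper39_NP9.Yb
import Pool.Agent.Helper27_NP9.Ds
import Pool.Agent.Helper26_NP9.DC
import Pool.Agent.Helper26_NP9.SEA
import Pool.Agent.Helper76_NP9.Seb
import Pool.Agent.Helper69_NP9.Sec
import Pool.Agent.Helper69_NP9.Fc
import Pool.Agent.Helper81_NP9.Ser
import Pool.Agent.Helper81_NP9.Fb
import Pool.Agent.Helper13_NP9.FA
import Pool.Agent.Helper43_NP9.CB

/-! There is a prime-representing polynomial in nine unknowns. -/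

set_option autoImplicit false

namespace Pool.Agent.NP9.H1

open Pool.Agent.NP9

theorem ser_all : SerStmt := H81.ser H26.sea H76.seb H69.sec

theorem snd_all : SndStmt :=
  snd H39.ySq H39.yMod H39.yBd (H27.ds H39.yPell H39.ySq) ser_all H13.fa H81.fb

theorem cmp_all : CmpStmt :=
  cmp H39.ySq H39.yMod H39.yBd (H26.dc H39.yPell H39.ySq H39.yMod H39.yBd) ser_all H69.fc

/-- There is an integer polynomial in nine unknowns whose positive values over the natural
numbers are exactly the primes. -/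
theorem nine : ∃ f : MvPolynomial (Fin 9) ℤ, ∀ p : ℕ, 0 < p →
    ((∃ x : Fin 9 → ℕ, MvPolynomial.eval (fun i => (x i : ℤ)) f = (p : ℤ)) ↔ p.Prime) :=
  fin H43.cb snd_all cmp_all

end Pool.Agent.NP9.H1
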