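import Pool.Agent.Helper1_NP9.Stmts

set_option autoImplicit false

namespace Pool.Agent.NP9.H1

open Pool.Agent.NP9

section maps

variable {R S : Type} [CommRing R] [CommRing S] (φ : R →+* S)

theorem map_pF (t m : R) : φ (pF t m) = pF (φ t) (φ m) := by
  simp only [pF, map_mul, map_add, map_one, map_ofNat]

theorem map_pc (t m : R) : φ (pc t m) = pc (φ t) (φ m) := by
  simp only [pc, map_mul, map_add, map_pow, map_ofNat, map_pF]

theorem map_pK (t m l : R) : φ (pK t m l) = pK (φ t) (φ m) (φ l) := by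
  simp only [pK, map_mul, map_add, map_sub, map_one, map_ofNat, map_pc]

theorem map_pv (t m l : R) : φ (pv t m l) = pv (φ t) (φ m) (φ l) := by
  simp only [pv, map_mul, map_ofNat, map_pc, map_pK]

theorem map_pC (t m l h : R) : φ (pC t m l h) = pC (φ t) (φ m) (φ l) (φ h) := by
  simp only [pC, map_mul, map_add, map_pc, map_pv]

theorem map_pJ (t m l k : R) : φ (pJ t m l k) = pJ (φ t) (φ m) (φ l) (φ k) := by
  simp only [pJ, map_mul, map_add, map_sub, map_one, map_pc, map_pv]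

theorem map_dD (a C : R) : φ (dD a C) = dD (φ a) (φ C) := by
  simp only [dD, map_mul, map_add, map_sub, map_pow, map_one]

theorem map_dE (a C x : R) : φ (dE a C x) = dE (φ a) (φ C) (φ x) := by
  simp only [dE, map_mul, map_add, map_pow, map_one, map_ofNat, map_dD]

theorem map_dF (a C x : R) : φ (dF a C x) = dF (φ a) (φ C) (φ x) := by
  simp only [dF, map_mul, map_add, map_sub, map_pow, map_one, map_dE]

theorem map_dG (a C x : R) : φ (dG a C x) = dG (φ a) (φ C) (φ x) := by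
  simp only [dG, map_mul, map_add, map_sub, map_dF]

theorem map_dH (a B C x y : R) : φ (dH a B C x y) = dH (φ a) (φ B) (φ C) (φ x) (φ y) := by
  simp only [dH, map_mul, map_add, map_one, map_ofNat, map_dF]

theorem map_dI (a B C x y : R) : φ (dI a B C x y) = dI (φ a) (φ B) (φ C) (φ x) (φ y) := by
  simp only [dI, map_mul, map_add, map_sub, map_pow, map_one, map_dG, map_dH]

theorem map_dfi (a B C x y : R) : φ (dfi a B C x y) = dfi (φ a) (φ B) (φ C) (φ x) (φ y) := by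
  simp only [dfi, map_mul, map_dD, map_dF, map_dI]

theorem map_pA1 (t m l : R) : φ (pA1 t m l) = pA1 (φ t) (φ m) (φ l) := by
  simp only [pA1, map_mul, map_add, map_sub, map_pow, map_one, map_pc, map_pK]

theorem map_pA2 (t m l k : R) : φ (pA2 t m l k) = pA2 (φ t) (φ m) (φ l) (φ k) := by
  simp only [pA2, map_mul, map_add, map_sub, map_pow, map_one, map_pv, map_pJ]

theorem map_pA3 (t m l h x y : R) :
    φ (pA3 t m l h x y) = pA3 (φ t) (φ m) (φ l) (φ h) (φ x) (φ y) := by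
  simp only [pA3, map_dfi, map_add, map_one, map_pv, map_pc, map_pC]

theorem map_pz (t m g h k l : R) :
    φ (pz t m g h k l) = pz (φ t) (φ m) (φ g) (φ h) (φ k) (φ l) := by
  simp only [pz, map_sub, map_mul, map_ofNat, map_pC, map_pv, map_pJ]

theorem map_pR (t m g h k l : R) :
    φ (pR t m g h k l) = pR (φ t) (φ m) (φ g) (φ h) (φ k) (φ l) := by
  simp only [pR, map_sub, map_mul, map_pow, map_ofNat, map_pz, map_pK, map_pJ, map_pF]

theorem map_cW (r : R) : φ (cW r) = cW (φ r) := by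
  simp only [cW, map_sub, map_mul, map_ofNat, map_one]

theorem map_cX (a b c : R) : φ (cX a b c) = cX (φ a) (φ b) (φ c) := by
  simp only [cX, map_add, map_one]

theorem map_cU (a b c r w : R) : φ (cU a b c r w) = cU (φ a) (φ b) (φ c) (φ r) (φ w) := by
  simp only [cU, map_sub, map_mul, map_pow, map_cW, map_cX]

theorem map_cA (a r : R) : φ (cA a r) = cA (φ a) (φ r) := by
  simp only [cA, map_mul, map_pow, map_cW]

theorem map_cB (a b c r : R) : φ (cB a b c r) = cB (φ a) (φ b) (φ c) (φ r) := by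
  simp only [cB, map_mul, map_pow, map_cW, map_cX]

theorem map_cC (a b c r : R) : φ (cC a b c r) = cC (φ a) (φ b) (φ c) (φ r) := by
  simp only [cC, map_mul, map_pow, map_cW, map_cX]

theorem map_cEv (u α β γ : R) : φ (cEv u α β γ) = cEv (φ u) (φ α) (φ β) (φ γ) := by
  simp only [cEv, map_mul, map_add, map_sub, map_pow, map_ofNat]

theorem map_cOd (u α β γ : R) : φ (cOd u α β γ) = cOd (φ u) (φ α) (φ β) (φ γ) := by
  simp only [cOd, map_mul, map_add, map_sub, map_pow, map_ofNat]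

theorem map_cPr (u α β γ : R) : φ (cPr u α β γ) = cPr (φ u) (φ α) (φ β) (φ γ) := by
  simp only [cPr, map_mul, map_sub, map_pow, map_cEv, map_cOd]

theorem map_comb (a b c r w : R) :
    φ (comb a b c r w) = comb (φ a) (φ b) (φ c) (φ r) (φ w) := by
  simp only [comb, map_cPr, map_cU, map_cA, map_cB, map_cC]

theorem map_prm (t m g h k l x y w : R) :
    φ (prm t m g h k l x y w)
      = prm (φ t) (φ m) (φ g) (φ h) (φ k) (φ l) (φ x) (φ y) (φ w) := by
  simp only [prm, map_mul, map_add, map_sub, map_pow, map_one, map_ofNat, map_comb, map_pA1,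
    map_pA2, map_pA3, map_pR]

end maps

theorem val_aux (t c : ℤ) (p : ℕ) (hp : 0 < p) (ht : 0 ≤ t)
    (h : (t + 2) * (1 - c ^ 2) = (p : ℤ)) : c = 0 ∧ (p : ℤ) = t + 2 := by
  have h0 : c = 0 := by
    by_contra hne
    have h1 : 0 < c ^ 2 := by positivity
    have h3 : (0 : ℤ) < (p : ℤ) := by exact_mod_cast hp
    nlinarith [mul_nonneg (show (0 : ℤ) ≤ t + 2 by linarith) (show (0 : ℤ) ≤ c ^ 2 - 1 by linarith)]
  refine ⟨h0, ?_⟩
  subst h0
  linarith

theorem pF_pos (t m : ℕ) : (1 : ℤ) ≤ pF (t : ℤ) (m : ℤ) := by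
  unfold pF
  nlinarith [mul_nonneg (Int.natCast_nonneg m) (Int.natCast_nonneg t), Int.natCast_nonneg m,
    Int.natCast_nonneg t]

theorem pc_ge (t m : ℕ) : 1000 * ((t : ℤ) + 2) ^ 2 ≤ pc (t : ℤ) (m : ℤ) := by
  unfold pc
  have h := pF_pos t m
  have h2 : (0 : ℤ) ≤ 1000 * ((t : ℤ) + 2) ^ 2 := by positivity
  nlinarith

theorem pc_ge' (t m : ℕ) : (4000 : ℤ) ≤ pc (t : ℤ) (m : ℤ) := by
  have h := pc_ge t m
  have ht : (0 : ℤ) ≤ t := Int.natCast_nonneg t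
  nlinarith

theorem pK_ge (t m l : ℕ) : (2 : ℤ) ≤ pK (t : ℤ) (m : ℤ) (l : ℤ) := by
  unfold pK
  have h := pc_ge' t m
  have hl : (0 : ℤ) ≤ l := Int.natCast_nonneg l
  have ht : (0 : ℤ) ≤ t := Int.natCast_nonneg t
  nlinarith [mul_nonneg hl (show (0 : ℤ) ≤ pc (t : ℤ) (m : ℤ) - 1 by linarith)]

theorem pv_ge (t m l : ℕ) : 200 * pc (t : ℤ) (m : ℤ) ≤ pv (t : ℤ) (m : ℤ) (l : ℤ) := by
  unfold pv
  have h := pc_ge' t m
  have hK := pK_ge t m l
  nlinarith

theorem pC_ge (t m l h : ℕ) :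
    pc (t : ℤ) (m : ℤ) ≤ pC (t : ℤ) (m : ℤ) (l : ℤ) (h : ℤ) := by
  unfold pC
  have h1 := pv_ge t m l
  have h2 := pc_ge' t m
  have hh : (0 : ℤ) ≤ h := Int.natCast_nonneg h
  nlinarith [mul_nonneg hh (show (0 : ℤ) ≤ pv (t : ℤ) (m : ℤ) (l : ℤ) by linarith)]

theorem dfi_pos (a B C x y : ℤ) (ha : 2 ≤ a) (hC : 1 ≤ C) (hx : 0 ≤ x) :
    1 ≤ dfi a B C x y := by
  have hD : 1 ≤ dD a C := by unfold dD; nlinarith [sq_nonneg C, mul_nonneg (show (0:ℤ) ≤ a^2-1 by nlinarith) (sq_nonneg C)]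
  have hE : 2 ≤ dE a C x := by
    unfold dE
    have h1 : (1 : ℤ) ≤ C ^ 2 := by nlinarith
    have h2 : (1 : ℤ) ≤ C ^ 2 * dD a C := by nlinarith
    nlinarith
  have hF : a ≤ dF a C x := by
    unfold dF
    have h1 : (4 : ℤ) ≤ dE a C x ^ 2 := by nlinarith
    nlinarith [mul_le_mul_of_nonneg_left h1 (show (0:ℤ) ≤ a^2-1 by nlinarith)]
  have hG : 1 ≤ dG a C x := by
    unfold dG
    nlinarith [mul_nonneg (show (0:ℤ) ≤ dF a C x by linarith) (show (0:ℤ) ≤ dF a C x - a by linarith)]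
  have hI : 1 ≤ dI a B C x y := by
    unfold dI
    nlinarith [mul_nonneg (show (0:ℤ) ≤ dG a C x ^ 2 - 1 by nlinarith) (sq_nonneg (dH a B C x y))]
  unfold dfi
  have h1 : 1 ≤ dD a C * dF a C x := by nlinarith
  nlinarith

theorem sq_aux {R : Type} [CommRing R] [LinearOrder R] [IsStrictOrderedRing R]
    (c K : R) (hc : 1 ≤ c) : 1 ≤ (c ^ 2 - 1) * K ^ 2 + 1 := by
  have h1 : 0 ≤ c ^ 2 - 1 := by nlinarith
  have h2 := mul_nonneg h1 (sq_nonneg K)
  linarith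

theorem pA1_aux {R : Type} [CommRing R] [LinearOrder R] [IsStrictOrderedRing R]
    (t m l : R) (hc : 1 ≤ pc t m) : 1 ≤ pA1 t m l := sq_aux _ _ hc

theorem pA2_aux {R : Type} [CommRing R] [LinearOrder R] [IsStrictOrderedRing R]
    (t m l k : R) (hc : 1 ≤ pv t m l) : 1 ≤ pA2 t m l k := sq_aux _ _ hc

theorem pA1_pos (t m l : ℕ) : (1 : ℤ) ≤ pA1 (t : ℤ) (m : ℤ) (l : ℤ) :=
  pA1_aux _ _ _ (le_trans (by norm_num) (pc_ge' t m))

theorem pA2_pos (t m l k : ℕ) : (1 : ℤ) ≤ pA2 (t : ℤ) (m : ℤ) (l : ℤ) (k : ℤ) := by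
  have h := pc_ge' t m
  have h2 := pv_ge t m l
  exact pA2_aux _ _ _ _ (by linarith)

theorem pA3_pos (t m l h x y : ℕ) :
    (1 : ℤ) ≤ pA3 (t : ℤ) (m : ℤ) (l : ℤ) (h : ℤ) (x : ℤ) (y : ℤ) := by
  unfold pA3
  have h1 := pc_ge' t m
  have h2 := pv_ge t m l
  have h3 := pC_ge t m l h
  exact dfi_pos _ _ _ _ _ (by linarith) (by linarith) (Int.natCast_nonneg x)

theorem fin (hc : CombStmt) (hs : SndStmt) (hm : CmpStmt) : FinStmt := by
  refine ⟨prm (MvPolynomial.X 0) (MvPolynomial.X 1) (MvPolynomial.X 2) (MvPolynomial.X 3)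
    (MvPolynomial.X 4) (MvPolynomial.X 5) (MvPolynomial.X 6) (MvPolynomial.X 7)
    (MvPolynomial.X 8), ?_⟩
  intro p hp
  have key : ∀ x : Fin 9 → ℕ, MvPolynomial.eval (fun i => (x i : ℤ))
      (prm (MvPolynomial.X 0) (MvPolynomial.X 1) (MvPolynomial.X 2) (MvPolynomial.X 3)
        (MvPolynomial.X 4) (MvPolynomial.X 5) (MvPolynomial.X 6) (MvPolynomial.X 7)
        (MvPolynomial.X 8) : MvPolynomial (Fin 9) ℤ)
      = prm (x 0 : ℤ) (x 1 : ℤ) (x 2 : ℤ) (x 3 : ℤ) (x 4 : ℤ) (x 5 : ℤ) (x 6 : ℤ) (x 7 : ℤ)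
        (x 8 : ℤ) := by
    intro x
    rw [map_prm]
    simp only [MvPolynomial.eval_X]
  constructor
  · rintro ⟨x, hx⟩
    rw [key x] at hx
    obtain ⟨h0, hp2⟩ := val_aux _ _ p hp (Int.natCast_nonneg (x 0)) hx
    have hp3 : p = x 0 + 2 := by exact_mod_cast hp2
    obtain ⟨s1, s2, s3, hr⟩ := (hc _ _ _ _ (pA1_pos (x 0) (x 1) (x 5))
      (pA2_pos (x 0) (x 1) (x 5) (x 4)) (pA3_pos (x 0) (x 1) (x 5) (x 3) (x 6) (x 7))).1
      ⟨x 8, h0⟩
    rw [hp3]
    exact hs _ _ _ _ _ _ _ _ s1 s2 s3 hr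
  · intro hpr
    obtain ⟨t, rfl⟩ : ∃ t, p = t + 2 := ⟨p - 2, by have := hpr.two_le; omega⟩
    obtain ⟨m, g, h, k, l, x, y, s1, s2, s3, hr⟩ := hm t hpr
    obtain ⟨w, hw⟩ := (hc _ _ _ _ (pA1_pos t m l) (pA2_pos t m l k) (pA3_pos t m l h x y)).2
      ⟨s1, s2, s3, hr⟩
    refine ⟨![t, m, g, h, k, l, x, y, w], ?_⟩
    rw [key]
    have e : prm (t : ℤ) (m : ℤ) (g : ℤ) (h : ℤ) (k : ℤ) (l : ℤ) (x : ℤ) (y : ℤ) (w : ℤ)
        = ((t + 2 : ℕ) : ℤ) := by
      rw [prm, hw]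
      push_cast
      ring
    exact e

end Pool.Agent.NP9.H1
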