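import Pool.Agent.Helper1_NP9.Stmts

/-! Step by step forms of the system, over any commutative ring (all by rfl). -/

set_option autoImplicit false

namespace Pool.Agent.NP9.H1

open Pool.Agent.NP9

section q

variable {R : Type} [CommRing R]

def qF (t m : R) : R := m * (t + 2) + (t + 1)
def qc (t F : R) : R := 1000 * (t + 2) ^ 2 * F
def qK (t c l : R) : R := (t + 2) + l * (c - 1)
def qv (c K : R) : R := 100 * c * K
def qC (c h v : R) : R := c + h * v
def qJ (t c k v : R) : R := (c - (t + 1)) + k * (v - 1)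
def q1 (c K : R) : R := (c ^ 2 - 1) * K ^ 2 + 1
def q3 (v c C x y : R) : R := dfi (v + 1) c C x y
def qz (C v g J : R) : R := C - 2 * v * g * J
def qR (z K J F : R) : R := z ^ 2 - 4 * (K * J - F * z) ^ 2

theorem eqF (t m : R) : pF t m = qF t m := rfl
theorem eqc (t m : R) : pc t m = qc t (pF t m) := rfl
theorem eqK (t m l : R) : pK t m l = qK t (pc t m) l := rfl
theorem eqv (t m l : R) : pv t m l = qv (pc t m) (pK t m l) := rfl
theorem eqC (t m l h : R) : pC t m l h = qC (pc t m) h (pv t m l) := rfl
theorem eqJ (t m l k : R) : pJ t m l k = qJ t (pc t m) k (pv t m l) := rfl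
theorem eq1 (t m l : R) : pA1 t m l = q1 (pc t m) (pK t m l) := rfl
theorem eq2 (t m l k : R) : pA2 t m l k = q1 (pv t m l) (pJ t m l k) := rfl
theorem eq3 (t m l h x y : R) :
    pA3 t m l h x y = q3 (pv t m l) (pc t m) (pC t m l h) x y := rfl
theorem eqz (t m g h k l : R) :
    pz t m g h k l = qz (pC t m l h) (pv t m l) g (pJ t m l k) := rfl
theorem eqR (t m g h k l : R) :
    pR t m g h k l = qR (pz t m g h k l) (pK t m l) (pJ t m l k) (pF t m) := rfl

end q

end Pool.Agent.NP9.H1
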